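import Pool.Agent.Run7.h72.Log

/-!
# Logarithmic Kodaira dimension of images of the product of an open variety and an open curve

Let `X° = X ∖ D` be a smooth variety over `ℂ` of dimension `n`, open in a smooth projective variety `X`
with a boundary `D` with simple normal crossings, and let `U = C ∖ B` be any smooth curve, open or
projective; `D` may be `0`. Let `X° × U ⇢ W°` be a dominant rational map of finite degree to an open
variety which is proper in the sense that a prime divisor over `X° × U` (on any compactification of any
birational model) has a centre on `X° × U` if and only if its image has a centre on `W°`; for example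
any finite morphism onto a normal variety. It need not be related to the product structure, and it need
not be the quotient by a group. Let `d` be the number of different points of `X` below a general fibre,
i.e. the degree over `W` of the image of `X × C` in `W × X`; it is at most the degree of
`X × C ⇢ W`, which may be arbitrarily large.

Suppose that `N (K_X + D) - M H` is effective, where `H` is a linear system which separates the points
of `X` below a general fibre, and `M > 2 N (d - 1)`. More generally one can use linear systems `H i` on
`X` which separate these points one after the other: then `d` is replaced by the degrees `d i` of the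
steps, `N (K_X + D) - ∑ M i H i` is effective and `M i > 2 N (d i - 1)`. Let `a` be the dimension of the
image of `X` under the map given by the `H i`.

**Theorem.** `log κ(W°) = -∞ ⟺ K_W + D_W is not pseudo-effective ⟺ W° is A¹-uniruled`, for the
logarithmic Kodaira dimension and the log canonical divisor `K_W + D_W` of a smooth compactification of
a resolution of `W°`. Otherwise `log κ(W°) ≥ a`.

There is no condition on the curve, the fundamental groups, the irregularity or the logarithmic
canonical forms of `X°`: one only needs logarithmic pluricanonical forms, and `log p_g(X°) = 0` is
possible; then nothing is known about the logarithmic canonical forms on `W°`. For example let `X` be the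
projective space and `D` a hypersurface of degree `δ` with normal crossings: the condition is
`δ > n - 1 + 2 d`, and the theorem holds for the proper images of `(ℙ^n ∖ D) × U` with fewer than
`(δ - n + 1) / 2` points of `ℙ^n` below a general fibre. Or let `X` be a resolution of the quotient of
the product of three hyperelliptic curves of the genera `g i` by the diagonal involution, `D = 0` and
`H i` the three projections to the projective line. Then `p_g(X) = 0` and `N = 2`, `M i = 2 (g i - 1)`, so
the theorem holds if the three projections separate the points of `X` below a general fibre of the map
to `W` and `g i > 2 d i - 1`.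

Proof. Let `T` be the function field of the image of `X × C` in `W × X`. For a differential `φ` on `C`
with at most simple poles at `B` and a logarithmic `N`-canonical form `ψ` on `X°` the product of `ψ` and
the `N`-th power of the trace of `φ` on `T` is a logarithmic `N`-canonical form of the open variety with
the function field `T`, as one sees in local coordinates of `X`. The same holds for the products of `ψ`
with the monomials in the functions of the systems `H i`. So if there is a nonzero trace then the norm
principle gives logarithmic pluricanonical forms on `W°`: if `t` generates the last step of the tower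
`ℂ(W) ⊂ ... ⊂ T` then the norm of a form `ω`, multiplied by a power of the norm of the derivative of the
minimal polynomial of `t`, is a logarithmic form, if all `t ^ j ω` are, `j ≤ 2 N (d - 1)`. If all the
traces are zero then the images in `W°` of the curves `{x} × U` are rational, with at most one point in
the boundary, and so `W°` is covered by images of the affine line.

The results on rational curves and traces for the product with a curve are the ones of the starting
tree (`Pool.Agent.N145.SX` and the parts used there).
-/

set_option autoImplicit false
set_option linter.overlappingInstances false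
set_option maxHeartbeats 4000000
set_option synthInstance.maxHeartbeats 400000

open FF Module IntermediateField Pool.Agent Pool.Agent.W602.GT Run7.h72
open Pool.Agent.W619.PL (IsA1Uniruled)

namespace Pool.Agent.Results.MP_410da7_ag.LogPluricanonicalTimesCurve

/-- The place `Q` of the function field `K` of `X × C` lies over a place of `E` without centre on
`X°`, or over a point in `B`: it has no centre on `X° × U`. -/
def Boundary {K : Type} [Field K] [Algebra ℂ K] {E C : IntermediateField ℂ K}
    (BX : Place ℂ E → Prop) (B : Set (Place ℂ C)) (Q : Place ℂ K) : Prop :=
  (∃ (P : Place ℂ E) (e : ℕ), BX P ∧ 0 < e ∧ ∀ f : E, Q.ord (f : K) = e * P.ord f) ∨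
    ∃ p ∈ B, ∃ e : ℕ, 0 < e ∧ ∀ f : C, Q.ord (f : K) = e * p.ord f

/-- The set `BW` of places of the function field `L` of `W` is the boundary of the image of `X° × U`:
for all places `Q` of `K` over a place `P` of `L`, `P` is in `BW` if and only if `Q` has no centre
on `X° × U`. -/
def IsImageBoundary {K : Type} [Field K] [Algebra ℂ K] {E C : IntermediateField ℂ K}
    (BX : Place ℂ E → Prop) (B : Set (Place ℂ C)) (L : Type) [Field L] [Algebra ℂ L] [Algebra L K]
    (BW : Place ℂ L → Prop) : Prop :=
  ∀ (P : Place ℂ L) (Q : Place ℂ K) (e : ℕ), 0 < e →
    (∀ f : L, Q.ord (algebraMap L K f) = e * P.ord f) → (BW P ↔ Boundary BX B Q)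

/-- **Negative logarithmic Kodaira dimension and `A¹`-uniruledness.** Let `K` be the function field of
`X × C`, i.e. the compositum of the function fields `E` of the variety `X` of dimension `n` and `C` of
the curve, of transcendence degree `n + 1`. Let `X°` be an open variety with function field `E` and
boundary `BX` (the places of `E` without centre on `X°`), and `B` a finite set of points of the curve;
they may be empty. Let `L ⊆ K` be the function field of a variety `W` such that the extension is
finite, and let `W°` be an open variety with function field `L` and boundary `BW` which is the image of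
the product of `X°` and the open curve under a proper map. Let `x i` (`i < c`) be families of rational
functions on `X`, each containing `1`, with `L(x 0, …, x (c - 1)) = L(E)`, let
`L_i = L(x 0, …, x (i - 1))` (this is `Lv L x i`), and let `a` of these functions be algebraically
independent. Suppose that there are `N > 0`, `M i` and a nonzero `N`-canonical form `ψ` on `X` such that
all products of `ψ` with `∏ (x i (f i)) ^ M i` are regular on `X°` with at most logarithmic poles at the
boundary, and `M i > 2 N ([L_{i + 1} : L_i] - 1)`. Then the following are equivalent: the logarithmic
Kodaira dimension of `W°` is `-∞`; the log canonical divisor of `W°` is not pseudo-effective; `W°` is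
`A¹`-uniruled. If the logarithmic Kodaira dimension of `W°` is not `-∞` then it is at least `a`. -/
theorem result (K : Type) [Field K] [Algebra ℂ K] [Algebra.EssFiniteType ℂ K] (n : ℕ)
    (E C : IntermediateField ℂ K) [Algebra.EssFiniteType ℂ E] [IsFF ℂ C] (hEC : E ⊔ C = ⊤)
    (hE : Algebra.trdeg ℂ E = n) (hK : Algebra.trdeg ℂ K = (n + 1 : ℕ)) (BX : Place ℂ E → Prop)
    (B : Set (Place ℂ C)) (hB : B.Finite) (L : Type) [Field L] [Algebra ℂ L] [Algebra L K]
    [IsScalarTower ℂ L K] [FiniteDimensional L K] (BW : Place ℂ L → Prop)
    (hBW : IsImageBoundary BX B L BW) {c : ℕ} {m : Fin c → ℕ} (x : ∀ i, Fin (m i + 1) → E)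
    (hx : ∀ i, x i 0 = 1)
    (hgen : Lv L (fun i b => (x i b : K)) c = IntermediateField.adjoin L (E : Set K)) {N : ℕ}
    (hN : 0 < N) (M : Fin c → ℕ)
    (hM : ∀ i : Fin c, 2 * N * (finrank L (Lv L (fun i b => (x i b : K)) (i + 1)) -
      finrank L (Lv L (fun i b => (x i b : K)) i)) <
      M i * finrank L (Lv L (fun i b => (x i b : K)) i))
    {ψ : (Fin n → Derivation ℂ E E) → E} (hψ0 : ∃ D, ψ D ≠ 0)
    (hψ : ∀ f : ∀ i, Fin (m i + 1),
      LogSec ℂ E n N BX fun D => (∏ i, x i (f i) ^ M i) * ψ D)
    {a : ℕ} (s : Fin a → Σ i, Fin (m i + 1))
    (hs : AlgebraicIndependent ℂ fun l => x (s l).1 (s l).2) :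
    [¬ KodGe ℂ L (n + 1) BW 0, ¬ Psef ℂ L (n + 1) BW, IsA1Uniruled ℂ L (n + 1) BW].TFAE ∧
    (KodGe ℂ L (n + 1) BW 0 → KodGe ℂ L (n + 1) BW a) := by
  refine nonvan_log hEC hE hK hB (BX := BX) (BL := BW)
    (fun P Q e h => by rw [hBW P Q e h.1 h.2]; rfl) x hx hgen hN M (fun i => ?_) hψ0 hψ s hs
  have h1 := hM i
  have e1 : 2 * N * (finrank L (Lv L (fun i b => (x i b : K)) (i + 1)) -
      finrank L (Lv L (fun i b => (x i b : K)) i)) =
      2 * (finrank L (Lv L (fun i b => (x i b : K)) (i + 1)) -
      finrank L (Lv L (fun i b => (x i b : K)) i)) * N := by ring
  rwa [e1] at h1

end Pool.Agent.Results.MP_410da7_ag.LogPluricanonicalTimesCurve
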