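import Pool.Agent.Run7.h546.NL.Open

/-!
MP_410da7_ag, Q1: `𝔸¹`-uniruledness and the logarithmic Kodaira dimension for the quasi-projective
varieties given by nested sums of high powers of monomials, and by the condition that some of the
coordinates do not vanish, for instance

`∑ i, (∑ j, x_{ij} ^ e_1) ^ e_2 = 0`, `x_{ij} ≠ 0` for some of the `(i, j)`,

or the same with arbitrary monomials in the place of the `x_{ij}`. (The starting results are about
nested sums of high powers of linear forms, `NestedAffineLines`, and about forms with few monomials,
`SparseLogVarieties`; here the coordinates which do not vanish are not nested sums on `V` with few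
terms, and the number of the monomials grows with the exponents.)

`NestedIn IsMono s M H G` (`Pool/Agent/TH710/ND/Dich.lean`): the form `G` is a sum of at most `s` terms
`c g ^ e`, `M ≤ e`, where the `g` are monomials or sums of at most `s` such terms of the next level, and
so on, with at most `H + 1` levels; the exponents and the numbers of summands are the same for all sums
of one level.

`SubVarU U F K w y`, `IsComponentU U F y` (`Pool/Agent/W602/GT`): `K` is the function field, `y` the
generic point (in homogeneous coordinates), and `w` the dimension of an irreducible component `V` of the
quasi-projective variety `{F_e = 0 for all e, x_j ≠ 0 for all j in U}` in `P^n`. `OffU U y` is the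
boundary: the set of the places of `K` whose centre lies on one of the hyperplanes `x_j = 0`, `j` in `U`.

`KodGe k K w (OffU U y) h` (`Pool/Agent/W602/GT/KDefs.lean`): the logarithmic Kodaira dimension of (a
resolution of) `V` is at least `h`, so `¬ KodGe k K w (OffU U y) 0` says that it is `-∞`.
`Psef k K w (OffU U y)` (`Pool/Agent/W602/GT/PsefDefs.lean`): the divisor `K_X + D` of a smooth
compactification `X` of a resolution of `V` with the normal crossing boundary `D` is pseudo-effective.

`AffineFamily U y d` (`Pool/Agent/Y216/SV/Afl.lean`): there are a variety `Y` of dimension `d` and a
dominant morphism `Y × 𝔸¹ → V` which is not constant on the affine lines; for `d = w - 1` this is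
`𝔸¹`-uniruledness as in the problem file.

`Contracts U k y b`, `Acts U k y b` (`Pool/Agent/W602/GT/KStm.lean`): `t ↦ diag (t ^ b_j)`, with
`b_j ≥ 0`, and `b_j = 0` for `j` in `U`, `b_j` being zero for some and not for all of the `j` with
`x_j ≠ 0` on `V`, defines a map from the product of the affine line and an open part of `V` to `V`; this
one-parameter group acts on `V`.

The proof. `Pool.Agent.Run7.h546.NL.nested_kod`: the exponents of the quotients of monomials which are
linked by the linear relations between the nested sums span a space `R`, and the diagonal matrices with
weights orthogonal to `R` act on `V`; the minors of finitely many families of relations whose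
exponents span `R` give the sections of the pluricanonical sheaves, and where all terms of these
relations have the same orders, the orders of the coordinates are weights of a torus action, so `V` is
covered by affine lines if they are not equal. `Pool.Agent.Run7.h546.NL.slice_of_contracts`: the affine
lines have a slice of dimension `w - 1`.
-/

set_option autoImplicit false

namespace Pool.Agent.Results.MP_410da7_ag.NestedMonomialLines

open FF Pool.Agent.W602.GT
open Pool.Agent.TH710.ND (NestedIn IsMono)
open Pool.Agent.Y216.SV (AffineFamily)

/-- Let `V` be an irreducible component, of dimension `w`, of the quasi-projective variety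
`{F_e = 0 for all e, x_j ≠ 0 for all j in U}` in `P^n` over an algebraically closed field `k` of
characteristic zero, given by (any number of) nested sums of powers of monomials with at most `H + 1`
levels and at most `s` summands at each of them, the exponents being at least
`(2 n + 2) (H + 1) (2 s + 1) ^ 5`.

(1) The following are equivalent: the logarithmic Kodaira dimension of `V` is `-∞`; the log canonical
divisor is not pseudo-effective; `V` is `𝔸¹`-uniruled, that is there is a dominant morphism
`Y × 𝔸¹ → V`, not constant on the affine lines, with `dim Y = dim V - 1`; there is such a morphism for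
a variety `Y` of some dimension; `V` is covered by the affine lines `t ↦ (t ^ b_j x_j)`, for some
weights `b_j ≥ 0`, zero for `j` in `U`.

(2) If these conditions do not hold then the logarithmic Kodaira dimension of `V` is `w - p` for a
`p ≤ w` such that `p` independent one-parameter groups of diagonal matrices act on `V`. -/
theorem result {k : Type} [Field k] [IsAlgClosed k] [CharZero k] {n : ℕ} {ι : Type}
    {U : Set (Fin (n + 1))} {F : ι → MvPolynomial (Fin (n + 1)) k} {s H M : ℕ}
    (hF : ∀ e, IsForm (F e) ∧ NestedIn IsMono s M H (F e))
    (hM : (2 * n + 2) * ((H + 1) * (2 * s + 1) ^ 5) ≤ M) {K : Type} [Field K] [Algebra k K]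
    {w : ℕ} {y : Fin (n + 1) → K} (hy : SubVarU U F K w y) (hcomp : IsComponentU U F y) :
    [¬ KodGe k K w (OffU U y) 0, ¬ Psef k K w (OffU U y), AffineFamily U (k := k) y (w - 1),
      ∃ d, AffineFamily U (k := k) y d, ∃ b, Contracts U k y b].TFAE ∧
    ((¬ ∃ b, Contracts U k y b) → ∃ (h p : ℕ) (b : Fin p → Fin (n + 1) → ℤ), h + p = w ∧
      (∀ l, Acts U k y (b l)) ∧
      (∀ c : Fin p → ℤ, (∀ j j', y j ≠ 0 → y j' ≠ 0 →
        ∑ l, c l * b l j = ∑ l, c l * b l j') → c = 0) ∧
      KodGe k K w (OffU U y) h ∧ ¬ KodGe k K w (OffU U y) (h + 1)) :=
  Pool.Agent.Run7.h546.NL.nested_open hF hM hy hcomp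

end Pool.Agent.Results.MP_410da7_ag.NestedMonomialLines
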